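import Pool.Agent.W102.TD.Defs

/-! Subtask TD-LOOP: LOOP from LOOP0 and ROT. -/

open Finset

namespace Pool.Agent.W334.TD

theorem aux (h0 : Pool.Agent.W102.TD.LOOP0) (hr : Pool.Agent.W102.TD.ROT) :
    ∀ (k : ℕ) (v : List Bool), true ∈ (List.replicate k true ++ v) →
      2 * ∑ d ∈ Finset.Icc (-((List.replicate k true ++ false :: v).length : ℤ)) (-1),
        (Pool.Agent.W102.TD.cnt (List.replicate k true ++ false :: v) false false d +
          Pool.Agent.W102.TD.cnt (List.replicate k true ++ false :: v) true true d) ≤
        2 ^ (List.replicate k true ++ false :: v).length := by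
  intro k
  induction k with
  | zero =>
    intro v hv
    simp only [List.replicate_zero, List.nil_append] at hv ⊢
    exact h0 v hv
  | succ k ih =>
    intro v _
    have h1 := ih (v ++ [true]) (by simp)
    have hlen : (List.replicate (k+1) true ++ false :: v).length =
        (List.replicate k true ++ false :: (v ++ [true])).length := by
      simp; omega
    have hc : ∀ d : ℤ, Pool.Agent.W102.TD.cnt (List.replicate (k+1) true ++ false :: v) false false d +
          Pool.Agent.W102.TD.cnt (List.replicate (k+1) true ++ false :: v) true true d =
        Pool.Agent.W102.TD.cnt (List.replicate k true ++ false :: (v ++ [true])) false false d +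
          Pool.Agent.W102.TD.cnt (List.replicate k true ++ false :: (v ++ [true])) true true d := by
      intro d
      have := hr true (List.replicate k true ++ false :: v) d
      simpa [List.replicate_succ, List.append_assoc] using this
    rw [hlen, Finset.sum_congr rfl (fun d _ => hc d)]
    exact h1

theorem decomp : ∀ w : List Bool, false ∈ w → ∃ (k : ℕ) (v : List Bool),
    w = List.replicate k true ++ false :: v := by
  intro w
  induction w with
  | nil => intro h; simp at h
  | cons c w ih =>
    intro h
    cases c with
    | false => exact ⟨0, w, by simp⟩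
    | true =>
      obtain ⟨k, v, hk⟩ := ih (by simpa using h)
      exact ⟨k + 1, v, by rw [hk]; simp [List.replicate_succ]⟩

theorem LOOP (h0 : Pool.Agent.W102.TD.LOOP0) (hr : Pool.Agent.W102.TD.ROT) :
    Pool.Agent.W102.TD.LOOP := by
  intro w ht hf
  obtain ⟨k, v, rfl⟩ := decomp w hf
  refine aux h0 hr k v ?_
  simp only [List.mem_append, List.mem_cons] at ht ⊢
  rcases ht with h | h | h
  · exact Or.inl h
  · simp at h
  · exact Or.inr h

end Pool.Agent.W334.TD
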